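import Mathlib

/-!
# MP_50fe75_gt: every Scott completion of a T0 space is its D-completion

Q1 asks for a T0 space `X` with a Scott completion which is not a D-completion of `X`.
We prove that there is none: if `i : X → X'` is a Scott completion of the T0 space `X` then
`i` is a topological embedding with d-dense image (and `X'` is a monotone convergence space).

Idea of the proof. For a d-closed subset `C` of `X'` which contains the image of `i` let `Z` be the
set of all pairs `(F, x)` where `x ∈ C` and `F` is a family of open neighbourhoods of `x`,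
with `(F, x) ≤ (G, y)` iff `x = y` and `F ⊆ G`, or `G` consists of all open neighbourhoods of `y`
and `F ⊆ G`. This is a dcpo, and `x ↦ (N(x), x)` is continuous from `C` to the Scott space `Z`.
The extension of this map to `X'` shows that all points of `X'` belong to `C`.
-/

set_option autoImplicit false

namespace Pool.Agent.Results.MP_50fe75_gt.ScottImpliesD

universe u

section Defs

variable {X Y : Type u} [TopologicalSpace X] [TopologicalSpace Y]

/-- The specialization order of a space: `x ⊑ y` iff `x` lies in the closure of `{y}`. -/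
def SpecLE (x y : X) : Prop := x ∈ closure ({y} : Set X)

/-- Directed (nonempty) subsets for the specialization order. -/
def IsDir (D : Set X) : Prop :=
  D.Nonempty ∧ ∀ x ∈ D, ∀ y ∈ D, ∃ z ∈ D, SpecLE x z ∧ SpecLE y z

/-- `s` is the supremum of `D` in the specialization order. -/
def IsSup (D : Set X) (s : X) : Prop :=
  (∀ x ∈ D, SpecLE x s) ∧ ∀ t, (∀ x ∈ D, SpecLE x t) → SpecLE s t

/-- Scott open sets of the specialization order: upper sets `U` such that every directed set whose
supremum exists and lies in `U` meets `U`. -/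
def ScottOpen (U : Set X) : Prop :=
  (∀ x y, x ∈ U → SpecLE x y → y ∈ U) ∧
    ∀ (D : Set X) (s : X), IsDir D → IsSup D s → s ∈ U → (D ∩ U).Nonempty

/-- The specialization order is directed complete. -/
def IsDcpo (X : Type u) [TopologicalSpace X] : Prop :=
  ∀ D : Set X, IsDir D → ∃ s, IsSup D s

/-- Scott spaces: T0, the specialization order is a dcpo, the topology is its Scott topology. -/
structure IsScottSpace (X : Type u) [TopologicalSpace X] : Prop where
  t0 : T0Space X
  dcpo : IsDcpo X
  isOpen_iff : ∀ U : Set X, IsOpen U ↔ ScottOpen U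

/-- Monotone convergence spaces (d-spaces). -/
structure IsMonotoneConvergenceSpace (X : Type u) [TopologicalSpace X] : Prop where
  t0 : T0Space X
  dcpo : IsDcpo X
  scottOpen : ∀ U : Set X, IsOpen U → ScottOpen U

/-- d-closed sets for the specialization order. -/
def DClosed (A : Set X) : Prop :=
  ∀ (D : Set X) (s : X), D ⊆ A → IsDir D → IsSup D s → s ∈ A

/-- `A` is d-dense: its closure in the topology whose closed sets are the d-closed sets is
everything, that is, the whole space is the only d-closed set which contains `A`. -/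
def DDense (A : Set X) : Prop :=
  ∀ C : Set X, DClosed C → A ⊆ C → C = Set.univ

/-- `j` is a D-completion of `X`: a topological embedding with d-dense image into a monotone
convergence space. -/
structure IsDCompletion (j : X → Y) : Prop where
  space : IsMonotoneConvergenceSpace Y
  embedding : Topology.IsEmbedding j
  dense : DDense (Set.range j)

/-- `i : X → Y` is a Scott completion of `X`: `Y` is a Scott space, `i` is continuous, and every
continuous map from `X` to a Scott space has exactly one continuous extension along `i`. -/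
structure IsScottCompletion (i : X → Y) : Prop where
  space : IsScottSpace Y
  continuous : Continuous i
  extend : ∀ (Z : Type u) [TopologicalSpace Z], IsScottSpace Z → ∀ g : X → Z, Continuous g →
    ∃! h : Y → Z, Continuous h ∧ g = h ∘ i

end Defs

/-! ### The Scott space of a directed complete partial order -/

section Scott

variable (Z : Type u) [PartialOrder Z]

/-- The Scott topology of a partial order. -/
def scottTop : TopologicalSpace Z where
  IsOpen U := IsUpperSet U ∧ ∀ D : Set Z, D.Nonempty → DirectedOn (· ≤ ·) D → ∀ s, IsLUB D s →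
    s ∈ U → (D ∩ U).Nonempty
  isOpen_univ := ⟨isUpperSet_univ, fun D hD _ _ _ _ => by simpa using hD⟩
  isOpen_inter U V hU hV := by
    refine ⟨hU.1.inter hV.1, fun D hD hdir s hs hsU => ?_⟩
    obtain ⟨d, hd, hdU⟩ := hU.2 D hD hdir s hs hsU.1
    obtain ⟨e, he, heV⟩ := hV.2 D hD hdir s hs hsU.2
    obtain ⟨f, hf, hdf, hef⟩ := hdir d hd e he
    exact ⟨f, hf, hU.1 hdf hdU, hV.1 hef heV⟩
  isOpen_sUnion S hS := by
    refine ⟨isUpperSet_sUnion fun U hU => (hS U hU).1, fun D hD hdir s hs hsU => ?_⟩
    obtain ⟨U, hU, hsU⟩ := hsU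
    obtain ⟨d, hd, hdU⟩ := (hS U hU).2 D hD hdir s hs hsU
    exact ⟨d, hd, U, hU, hdU⟩

theorem specLE_scott (x y : Z) : @SpecLE Z (scottTop Z) x y ↔ x ≤ y := by
  letI := scottTop Z
  constructor
  · intro h
    have hcl : IsClosed (Set.Iic y) := by
      rw [← isOpen_compl_iff]
      refine ⟨(isLowerSet_Iic y).compl, fun D hD _ s hs hsU => ?_⟩
      by_contra hcon
      apply hsU
      refine hs.2 fun d hd => ?_
      by_contra hdy
      exact hcon ⟨d, hd, hdy⟩
    exact closure_minimal (by simp) hcl h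
  · intro h
    change x ∈ closure ({y} : Set Z)
    rw [mem_closure_iff]
    intro U hU hx
    exact ⟨y, hU.1 h hx, rfl⟩

theorem isScottSpace_scott
    (hZ : ∀ D : Set Z, D.Nonempty → DirectedOn (· ≤ ·) D → ∃ s, IsLUB D s) :
    @IsScottSpace Z (scottTop Z) := by
  letI := scottTop Z
  have hdir : ∀ D : Set Z, IsDir D ↔ D.Nonempty ∧ DirectedOn (· ≤ ·) D := by
    intro D
    unfold IsDir DirectedOn
    simp only [specLE_scott]
  have hsup : ∀ (D : Set Z) (s : Z), IsSup D s ↔ IsLUB D s := by
    intro D s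
    unfold IsSup
    simp only [specLE_scott]
    rfl
  refine ⟨?_, ?_, ?_⟩
  · refine ⟨fun x y hxy => ?_⟩
    have h1 : x ≤ y := by
      rw [← specLE_scott]
      exact hxy.specializes'.mem_closure
    have h2 : y ≤ x := by
      rw [← specLE_scott]
      exact hxy.specializes.mem_closure
    exact le_antisymm h1 h2
  · intro D hD
    obtain ⟨s, hs⟩ := hZ D ((hdir D).1 hD).1 ((hdir D).1 hD).2
    exact ⟨s, (hsup D s).2 hs⟩
  · intro U
    constructor
    · intro hU
      refine ⟨fun x y hx hxy => hU.1 ((specLE_scott Z x y).1 hxy) hx, fun D s hD hs hsU => ?_⟩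
      exact hU.2 D ((hdir D).1 hD).1 ((hdir D).1 hD).2 s ((hsup D s).1 hs) hsU
    · intro hU
      refine ⟨fun x y hxy hx => hU.1 x y hx ((specLE_scott Z x y).2 hxy), fun D hD hd s hs hsU => ?_⟩
      exact hU.2 D s ((hdir D).2 ⟨hD, hd⟩) ((hsup D s).2 hs) hsU

end Scott

/-! ### The two point Scott space -/

/-- The Scott space with two points, in any universe. -/
abbrev Two : Type u := Set PUnit.{u + 1}

theorem two_scott : @IsScottSpace Two.{u} (scottTop Two.{u}) :=
  isScottSpace_scott _ fun D _ _ => ⟨sSup D, isLUB_sSup D⟩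

theorem two_cases (t : Two.{u}) : t = ∅ ∨ t = Set.univ := by
  by_cases h : PUnit.unit ∈ t
  · right
    ext a
    simpa using h
  · left
    ext a
    simpa using h

theorem two_open : @IsOpen Two.{u} (scottTop Two.{u}) {Set.univ} := by
  refine ⟨fun x y hxy hx => ?_, fun D _ _ s hs hsU => ?_⟩
  · simp only [Set.mem_singleton_iff] at hx ⊢
    subst hx
    exact Set.univ_subset_iff.1 hxy
  · by_contra hcon
    have hD : ∀ d ∈ D, d ≤ (∅ : Two.{u}) := by
      intro d hd
      rcases two_cases d with h | h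
      · exact h.le
      · exact absurd ⟨d, hd, h⟩ hcon
    have hs0 : s ≤ (∅ : Two.{u}) := hs.2 hD
    simp only [Set.mem_singleton_iff] at hsU
    subst hsU
    exact hs0 (Set.mem_univ PUnit.unit)

/-- The characteristic map of a set. -/
def chi {X : Type u} (U : Set X) (x : X) : Two.{u} := {_a | x ∈ U}

theorem chi_eq_univ {X : Type u} (U : Set X) (x : X) : chi U x = Set.univ ↔ x ∈ U := by
  unfold chi
  constructor
  · intro h
    have := h.symm ▸ Set.mem_univ PUnit.unit
    simpa using this
  · intro h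
    ext a
    simpa using h

theorem chi_eq_empty {X : Type u} (U : Set X) (x : X) : chi U x = ∅ ↔ x ∉ U := by
  unfold chi
  constructor
  · intro h hx
    have : PUnit.unit ∈ (∅ : Two.{u}) := by
      rw [← h]
      exact hx
    exact this
  · intro h
    ext a
    simpa using h

theorem continuous_chi {X : Type u} [TopologicalSpace X] {U : Set X} (hU : IsOpen U) :
    @Continuous X Two.{u} _ (scottTop Two.{u}) (chi U) := by
  letI := scottTop Two.{u}
  refine ⟨fun O hO => ?_⟩
  by_cases h0 : (∅ : Two.{u}) ∈ O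
  · have : chi U ⁻¹' O = Set.univ := by
      ext x
      simp only [Set.mem_preimage, Set.mem_univ, iff_true]
      exact hO.1 (Set.empty_subset _) h0
    rw [this]
    exact isOpen_univ
  · by_cases h1 : (Set.univ : Two.{u}) ∈ O
    · have : chi U ⁻¹' O = U := by
        ext x
        simp only [Set.mem_preimage]
        constructor
        · intro hx
          by_contra hxU
          rw [(chi_eq_empty U x).2 hxU] at hx
          exact h0 hx
        · intro hx
          rw [(chi_eq_univ U x).2 hx]
          exact h1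
      rw [this]
      exact hU
    · have : chi U ⁻¹' O = ∅ := by
        ext x
        simp only [Set.mem_preimage, Set.mem_empty_iff_false, iff_false]
        intro hx
        rcases two_cases (chi U x) with h | h
        · exact h0 (h ▸ hx)
        · exact h1 (h ▸ hx)
      rw [this]
      exact isOpen_empty

/-! ### Open sets and Scott completions -/

section Completion

variable {X Y : Type u} [TopologicalSpace X] [TopologicalSpace Y]

theorem exists_open {i : X → Y} (hi : IsScottCompletion i) {U : Set X} (hU : IsOpen U) :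
    ∃ V : Set Y, IsOpen V ∧ i ⁻¹' V = U := by
  letI := scottTop Two.{u}
  obtain ⟨h, ⟨hc, hh⟩, -⟩ := hi.extend Two.{u} two_scott (chi U) (continuous_chi hU)
  refine ⟨h ⁻¹' {Set.univ}, two_open.preimage hc, ?_⟩
  ext x
  simp only [Set.mem_preimage, Set.mem_singleton_iff]
  rw [show h (i x) = chi U x from (congrFun hh x).symm]
  exact chi_eq_univ U x

theorem open_ext {i : X → Y} (hi : IsScottCompletion i) {V V' : Set Y} (hV : IsOpen V)
    (hV' : IsOpen V') (h : i ⁻¹' V = i ⁻¹' V') : V = V' := by
  letI := scottTop Two.{u}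
  have hc : Continuous (chi V ∘ i) := (continuous_chi hV).comp hi.continuous
  have heq : chi V ∘ i = chi V' ∘ i := by
    funext x
    have hx : i x ∈ V ↔ i x ∈ V' := by
      have := Set.ext_iff.1 h x
      simpa using this
    unfold chi
    simp only [Function.comp_apply, hx]
  have := (hi.extend Two.{u} two_scott (chi V ∘ i) hc).unique (y₁ := chi V) (y₂ := chi V')
    ⟨continuous_chi hV, rfl⟩ ⟨continuous_chi hV', heq⟩
  ext y
  rw [← chi_eq_univ V y, ← chi_eq_univ V' y, this]

theorem isEmbedding {i : X → Y} [T0Space X] (hi : IsScottCompletion i) :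
    Topology.IsEmbedding i := by
  have hind : Topology.IsInducing i := by
    refine ⟨?_⟩
    refine TopologicalSpace.ext_iff.2 fun U => ?_
    rw [isOpen_induced_iff]
    constructor
    · intro hU
      obtain ⟨V, hV, hVU⟩ := exists_open hi hU
      exact ⟨V, hV, hVU⟩
    · rintro ⟨V, hV, rfl⟩
      exact hV.preimage hi.continuous
  exact ⟨hind, hind.injective⟩

end Completion

/-! ### The dcpo of labelled families of open sets -/

section Labelled

variable {P : Type u} [TopologicalSpace P]

/-- The family of all open neighbourhoods of a point. -/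
def nb (x : P) : Set (Set P) := {U | IsOpen U ∧ x ∈ U}

/-- Pairs `(F, x)`, `x ∈ C`, `F` a family of open neighbourhoods of `x`. -/
@[ext] structure Lab (C : Set P) : Type u where
  fam : Set (Set P)
  lab : P
  mem : lab ∈ C
  sub : fam ⊆ nb lab

variable {C : Set P}

/-- The order on labelled families. -/
def LabLE (a b : Lab C) : Prop :=
  (a.lab = b.lab ∧ a.fam ⊆ b.fam) ∨ (b.fam = nb b.lab ∧ a.fam ⊆ b.fam)

theorem LabLE.fam {a b : Lab C} (h : LabLE a b) : a.fam ⊆ b.fam := by
  rcases h with h | h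
  · exact h.2
  · exact h.2

theorem nb_injective [T0Space P] {x y : P} (h : nb x = nb y) : x = y := by
  refine T0Space.t0 ?_
  rw [inseparable_iff_forall_isOpen]
  intro U hU
  have := Set.ext_iff.1 h U
  simp only [nb, Set.mem_setOf_eq, hU, true_and] at this
  exact this

instance [T0Space P] : PartialOrder (Lab C) where
  le := LabLE
  le_refl a := Or.inl ⟨rfl, subset_rfl⟩
  le_trans a b c hab hbc := by
    rcases hbc with ⟨h1, h2⟩ | ⟨h1, h2⟩
    · rcases hab with ⟨h3, h4⟩ | ⟨h3, h4⟩
      · exact Or.inl ⟨h3.trans h1, h4.trans h2⟩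
      · refine Or.inr ⟨?_, h4.trans h2⟩
        refine le_antisymm c.sub ?_
        rw [← h1, ← h3]
        exact h2
    · exact Or.inr ⟨h1, hab.fam.trans h2⟩
  le_antisymm a b hab hba := by
    have hf : a.fam = b.fam := le_antisymm hab.fam hba.fam
    have hl : a.lab = b.lab := by
      rcases hab with ⟨h1, h2⟩ | ⟨h1, h2⟩
      · exact h1
      · rcases hba with ⟨h3, h4⟩ | ⟨h3, h4⟩
        · exact h3.symm
        · exact nb_injective (h3.symm.trans (hf.trans h1))
    exact Lab.ext hf hl

theorem lab_le_iff [T0Space P] {a b : Lab C} :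
    a ≤ b ↔ (a.lab = b.lab ∧ a.fam ⊆ b.fam) ∨ (b.fam = nb b.lab ∧ a.fam ⊆ b.fam) := Iff.rfl

/-- The complete labelled family of a point of `C`. -/
def full (x : P) (hx : x ∈ C) : Lab C := ⟨nb x, x, hx, subset_rfl⟩

theorem specLE_iff_nb {x y : P} : SpecLE x y ↔ nb x ⊆ nb y := by
  unfold SpecLE
  rw [mem_closure_iff]
  constructor
  · intro h U hU
    obtain ⟨z, hz, rfl⟩ := h U hU.1 hU.2
    exact ⟨hU.1, hz⟩
  · intro h U hU hx
    exact ⟨y, (h ⟨hU, hx⟩).2, rfl⟩

theorem full_le_iff [T0Space P] {x : P} (hx : x ∈ C) {u : Lab C} :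
    full x hx ≤ u ↔ u.fam = nb u.lab ∧ nb x ⊆ nb u.lab := by
  rw [lab_le_iff]
  constructor
  · rintro (⟨h1, h2⟩ | ⟨h1, h2⟩)
    · change x = u.lab at h1
      change nb x ⊆ u.fam at h2
      subst h1
      exact ⟨le_antisymm u.sub h2, subset_rfl⟩
    · exact ⟨h1, h1 ▸ h2⟩
  · rintro ⟨h1, h2⟩
    refine Or.inr ⟨h1, ?_⟩
    rw [h1]
    exact h2

theorem lab_dcpo (hP : IsDcpo P) [T0Space P] (hC : DClosed C) (D : Set (Lab C))
    (hD : D.Nonempty) (hdir : DirectedOn (· ≤ ·) D) : ∃ s, IsLUB D s := by
  by_cases hcase : ∃ a ∈ D, ∀ d ∈ D, a ≤ d → d.lab = a.lab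
  · obtain ⟨a, ha, hlab⟩ := hcase
    have hcof : ∀ d ∈ D, d.fam ⊆ nb a.lab := by
      intro d hd
      obtain ⟨e, he, hde, hae⟩ := hdir d hd a ha
      have h1 := hlab e he hae
      have h2 := e.sub
      rw [h1] at h2
      exact (LabLE.fam hde).trans h2
    refine ⟨⟨⋃ d ∈ D, d.fam, a.lab, a.mem, ?_⟩, ?_, ?_⟩
    · exact Set.iUnion₂_subset hcof
    · intro d hd
      obtain ⟨e, he, hde, hae⟩ := hdir d hd a ha
      refine hde.trans ?_
      exact Or.inl ⟨hlab e he hae, Set.subset_biUnion_of_mem (u := fun d : Lab C => d.fam) he⟩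
    · intro u hu
      have hsub : (⋃ d ∈ D, d.fam) ⊆ u.fam :=
        Set.iUnion₂_subset fun d hd => LabLE.fam (hu hd)
      rcases hu ha with ⟨h1, h2⟩ | ⟨h1, h2⟩
      · exact Or.inl ⟨h1, hsub⟩
      · exact Or.inr ⟨h1, hsub⟩
  · push Not at hcase
    -- the complete elements are cofinal
    have hcof : ∀ d ∈ D, ∃ (y : P) (hy : y ∈ C), full y hy ∈ D ∧ d ≤ full y hy := by
      intro d hd
      obtain ⟨e, he, hde, hlab⟩ := hcase d hd
      have hef : e.fam = nb e.lab := by
        rcases hde with ⟨h1, h2⟩ | ⟨h1, h2⟩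
        · exact absurd h1.symm hlab
        · exact h1
      have : e = full e.lab e.mem := Lab.ext hef rfl
      refine ⟨e.lab, e.mem, this ▸ he, this ▸ hde⟩
    let L : Set P := {y | ∃ hy : y ∈ C, full y hy ∈ D}
    have hLC : L ⊆ C := fun y hy => hy.1
    have hLdir : IsDir L := by
      refine ⟨?_, ?_⟩
      · obtain ⟨d, hd⟩ := hD
        obtain ⟨y, hy, hyD, -⟩ := hcof d hd
        exact ⟨y, hy, hyD⟩
      · rintro x ⟨hx, hxD⟩ y ⟨hy, hyD⟩
        obtain ⟨e, he, hxe, hye⟩ := hdir _ hxD _ hyD
        obtain ⟨z, hz, hzD, hez⟩ := hcof e he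
        refine ⟨z, ⟨hz, hzD⟩, ?_, ?_⟩
        · rw [specLE_iff_nb]
          exact ((full_le_iff hx).1 (hxe.trans hez)).2
        · rw [specLE_iff_nb]
          exact ((full_le_iff hy).1 (hye.trans hez)).2
    obtain ⟨w, hw⟩ := hP L hLdir
    have hwC : w ∈ C := hC L w hLC hLdir hw
    refine ⟨full w hwC, ?_, ?_⟩
    · intro d hd
      obtain ⟨y, hy, hyD, hdy⟩ := hcof d hd
      refine hdy.trans ?_
      rw [full_le_iff]
      exact ⟨rfl, specLE_iff_nb.1 (hw.1 y ⟨hy, hyD⟩)⟩
    · intro u hu
      rw [full_le_iff]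
      have hall : ∀ y ∈ L, u.fam = nb u.lab ∧ nb y ⊆ nb u.lab := by
        rintro y ⟨hy, hyD⟩
        exact (full_le_iff hy).1 (hu hyD)
      obtain ⟨y0, hy0⟩ := hLdir.1
      refine ⟨(hall y0 hy0).1, ?_⟩
      rw [← specLE_iff_nb]
      exact hw.2 u.lab fun y hy => specLE_iff_nb.2 (hall y hy).2

/-- The map from `C` to the labelled families is continuous for the Scott topology. -/
theorem full_open [T0Space P] {O : Set (Lab C)} (hO : @IsOpen _ (scottTop (Lab C)) O) {x : P}
    (hx : x ∈ C) (hxO : full x hx ∈ O) :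
    ∃ U : Set P, IsOpen U ∧ x ∈ U ∧ ∀ (y : P) (hy : y ∈ C), y ∈ U → full y hy ∈ O := by
  let D : Set (Lab C) := {a | a.lab = x ∧ a.fam.Finite}
  have hDne : D.Nonempty := ⟨⟨∅, x, hx, Set.empty_subset _⟩, rfl, Set.finite_empty⟩
  have hDdir : DirectedOn (· ≤ ·) D := by
    rintro ⟨F, a, ha, hF⟩ ⟨h1, h1'⟩ ⟨G, b, hb, hG⟩ ⟨h2, h2'⟩
    simp only at h1 h1' h2 h2'
    subst h1
    subst h2
    exact ⟨⟨F ∪ G, b, ha, Set.union_subset hF hG⟩, ⟨rfl, h1'.union h2'⟩,
      Or.inl ⟨rfl, Set.subset_union_left⟩, Or.inl ⟨rfl, Set.subset_union_right⟩⟩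
  have hlub : IsLUB D (full x hx) := by
    constructor
    · rintro ⟨F, a, ha, hF⟩ ⟨h1, -⟩
      simp only at h1
      subst h1
      exact Or.inl ⟨rfl, hF⟩
    · intro u hu
      have key : ∀ U ∈ nb x, U ∈ u.fam := by
        intro U hU
        have hmem : (⟨{U}, x, hx, by simpa using hU⟩ : Lab C) ∈ D := ⟨rfl, Set.finite_singleton U⟩
        exact LabLE.fam (hu hmem) rfl
      have h0 : (⟨∅, x, hx, Set.empty_subset _⟩ : Lab C) ≤ u := hu ⟨rfl, Set.finite_empty⟩
      rcases h0 with ⟨h1, -⟩ | ⟨h1, -⟩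
      · exact Or.inl ⟨h1, key⟩
      · exact Or.inr ⟨h1, key⟩
  obtain ⟨a, ⟨ha, hfin⟩, haO⟩ := hO.2 D hDne hDdir _ hlub hxO
  refine ⟨⋂₀ a.fam, hfin.isOpen_sInter fun U hU => (a.sub hU).1, ?_, ?_⟩
  · intro U hU
    have := (a.sub hU).2
    rwa [ha] at this
  · intro y hy hyU
    refine hO.1 ?_ haO
    refine Or.inr ⟨rfl, fun U hU => ⟨(a.sub hU).1, hyU U hU⟩⟩

theorem fam_open [T0Space P] {V : Set P} (hP : ∀ U : Set P, IsOpen U → ScottOpen U)
    (hdc : IsDcpo P) (hC : DClosed C) :
    @IsOpen _ (scottTop (Lab C)) {a : Lab C | V ∈ a.fam} := by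
  refine ⟨fun a b hab ha => LabLE.fam hab ha, fun D hD hdir s hs hsV => ?_⟩
  by_contra hcon
  have hno : ∀ d ∈ D, V ∉ d.fam := fun d hd hV => hcon ⟨d, hd, hV⟩
  by_cases hcase : ∃ a ∈ D, ∀ d ∈ D, a ≤ d → d.lab = a.lab
  · obtain ⟨a, ha, hlab⟩ := hcase
    have hcof : ∀ d ∈ D, d.fam ⊆ nb a.lab := by
      intro d hd
      obtain ⟨e, he, hde, hae⟩ := hdir d hd a ha
      have h1 := hlab e he hae
      have h2 := e.sub
      rw [h1] at h2
      exact (LabLE.fam hde).trans h2
    have hub : s ≤ ⟨⋃ d ∈ D, d.fam, a.lab, a.mem, Set.iUnion₂_subset hcof⟩ := by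
      refine hs.2 fun d hd => ?_
      obtain ⟨e, he, hde, hae⟩ := hdir d hd a ha
      refine hde.trans ?_
      exact Or.inl ⟨hlab e he hae, Set.subset_biUnion_of_mem (u := fun d : Lab C => d.fam) he⟩
    have := LabLE.fam hub hsV
    simp only [Set.mem_iUnion, exists_prop] at this
    obtain ⟨d, hd, hV⟩ := this
    exact hno d hd hV
  · push Not at hcase
    have hcof : ∀ d ∈ D, ∃ (y : P) (hy : y ∈ C), full y hy ∈ D ∧ d ≤ full y hy := by
      intro d hd
      obtain ⟨e, he, hde, hlab⟩ := hcase d hd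
      have hef : e.fam = nb e.lab := by
        rcases hde with ⟨h1, h2⟩ | ⟨h1, h2⟩
        · exact absurd h1.symm hlab
        · exact h1
      have : e = full e.lab e.mem := Lab.ext hef rfl
      refine ⟨e.lab, e.mem, this ▸ he, this ▸ hde⟩
    let L : Set P := {y | ∃ hy : y ∈ C, full y hy ∈ D}
    have hLC : L ⊆ C := fun y hy => hy.1
    have hLdir : IsDir L := by
      refine ⟨?_, ?_⟩
      · obtain ⟨d, hd⟩ := hD
        obtain ⟨y, hy, hyD, -⟩ := hcof d hd
        exact ⟨y, hy, hyD⟩
      · rintro x ⟨hx, hxD⟩ y ⟨hy, hyD⟩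
        obtain ⟨e, he, hxe, hye⟩ := hdir _ hxD _ hyD
        obtain ⟨z, hz, hzD, hez⟩ := hcof e he
        refine ⟨z, ⟨hz, hzD⟩, ?_, ?_⟩
        · rw [specLE_iff_nb]
          exact ((full_le_iff hx).1 (hxe.trans hez)).2
        · rw [specLE_iff_nb]
          exact ((full_le_iff hy).1 (hye.trans hez)).2
    obtain ⟨w, hw⟩ := hdc L hLdir
    have hwC : w ∈ C := hC L w hLC hLdir hw
    have hub : s ≤ full w hwC := by
      refine hs.2 fun d hd => ?_
      obtain ⟨y, hy, hyD, hdy⟩ := hcof d hd
      refine hdy.trans ?_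
      rw [full_le_iff]
      exact ⟨rfl, specLE_iff_nb.1 (hw.1 y ⟨hy, hyD⟩)⟩
    have hVw : V ∈ nb w := LabLE.fam hub hsV
    obtain ⟨y, ⟨hy, hyD⟩, hyV⟩ := (hP V hVw.1).2 L w hLdir hw hVw.2
    exact hno _ hyD ⟨hVw.1, hyV⟩

end Labelled

/-- **Every Scott completion of a T0 space is a D-completion**: if `i : X → Y` is a Scott
completion of the T0 space `X`, then `i` is a topological embedding with d-dense image into the
monotone convergence space `Y`. -/
theorem result : ∀ (X Y : Type u) [TopologicalSpace X] [TopologicalSpace Y] [T0Space X]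
    (i : X → Y), IsScottCompletion i → IsDCompletion i := by
  intro X Y _ _ _ i hi
  haveI : T0Space Y := hi.space.t0
  have hmono : ∀ U : Set Y, IsOpen U → ScottOpen U := fun U hU => (hi.space.isOpen_iff U).1 hU
  refine ⟨⟨hi.space.t0, hi.space.dcpo, hmono⟩, isEmbedding hi, ?_⟩
  intro C hC hrange
  rw [Set.eq_univ_iff_forall]
  intro q
  letI := scottTop (Lab C)
  have hZ : IsScottSpace (Lab C) := isScottSpace_scott _ (lab_dcpo hi.space.dcpo hC)
  have hiC : ∀ x, i x ∈ C := fun x => hrange ⟨x, rfl⟩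
  let g : X → Lab C := fun x => full (i x) (hiC x)
  have hg : Continuous g := by
    refine ⟨fun O hO => ?_⟩
    rw [isOpen_iff_forall_mem_open]
    intro x hx
    obtain ⟨U, hU, hxU, hUO⟩ := full_open hO (hiC x) hx
    exact ⟨i ⁻¹' U, fun y hy => hUO (i y) (hiC y) hy, hU.preimage hi.continuous, hxU⟩
  obtain ⟨h, ⟨hh, hgi⟩, -⟩ := hi.extend (Lab C) hZ g hg
  have hV : ∀ V : Set Y, IsOpen V → h ⁻¹' {a : Lab C | V ∈ a.fam} = V := by
    intro V hV
    refine open_ext hi ((fam_open hmono hi.space.dcpo hC).preimage hh) hV ?_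
    ext x
    simp only [Set.mem_preimage, Set.mem_setOf_eq]
    rw [show h (i x) = g x from (congrFun hgi x).symm]
    exact ⟨fun hx => hx.2, fun hx => ⟨hV, hx⟩⟩
  have hfam : (h q).fam = nb q := by
    ext V
    constructor
    · intro hVq
      have hVo : IsOpen V := ((h q).sub hVq).1
      refine ⟨hVo, ?_⟩
      rw [← hV V hVo]
      exact hVq
    · rintro ⟨hVo, hq⟩
      rw [← hV V hVo] at hq
      exact hq
  -- some point of the image of `i` lies below `q`
  obtain ⟨x0, hx0⟩ : ∃ x0, i x0 ∈ closure ({q} : Set Y) := by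
    by_contra hcon
    push Not at hcon
    have : (closure ({q} : Set Y))ᶜ = Set.univ := by
      refine open_ext hi isClosed_closure.isOpen_compl isOpen_univ ?_
      ext x
      simpa using hcon x
    have hq : q ∈ (closure ({q} : Set Y))ᶜ := by
      rw [this]
      trivial
    exact hq (subset_closure rfl)
  have hle : g x0 ≤ h q := by
    rw [← specLE_scott]
    have h1 : h (i x0) ∈ closure (h '' {q}) := image_closure_subset_closure_image hh ⟨_, hx0, rfl⟩
    rw [Set.image_singleton] at h1
    rw [show g x0 = h (i x0) from congrFun hgi x0]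
    exact h1
  have hfull : (h q).fam = nb (h q).lab := ((full_le_iff (hiC x0)).1 hle).1
  have heq : q = (h q).lab := nb_injective (hfam.symm.trans hfull)
  rw [heq]
  exact (h q).mem

end Pool.Agent.Results.MP_50fe75_gt.ScottImpliesD
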